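import Pool.Agent.MP_14ad9d_nt.Full.Herb
import Pool.Agent.MP_14ad9d_nt.Full.FI1
import Pool.Agent.MP_f3cd89_nt.Herb

/-!
The Herbrand quotient of a finitely generated module over a cyclic group of prime order.
-/

open scoped Classical

namespace Pool.Agent.MP_e23604_nt.L

open AddSubgroup Module
open Pool.Agent.MP_14ad9d_nt.Full.HerbAux
open Pool.Agent.MP_14ad9d_nt.Full.FIAux (rank_of)

/-- the rank of a subgroup of an image -/
theorem rk_Hnt {U A : Type} [AddCommGroup U] [AddCommGroup A] [Module.Finite ℤ U] (φ : U →+ A)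
    (H : AddSubgroup A) (h : H ≤ φ.range) : finrank ℤ H ≤ finrank ℤ U := by
  have hs : Function.Surjective φ.rangeRestrict.toIntLinearMap := φ.rangeRestrict_surjective
  have : Module.Finite ℤ φ.range := Module.Finite.of_surjective _ hs
  exact (LinearMap.finrank_le_finrank_of_injective (f := (inclusion h).toIntLinearMap)
    (inclusion_injective h)).trans (LinearMap.finrank_le_finrank_of_surjective hs)

section
variable {l : ℕ} {A : Type} [AddCommGroup A] {σ D N : A →+ A}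

/-- multiples of elements of norm zero are coboundaries -/
theorem cob_Hnt (hD : D = σ - AddMonoidHom.id A) (hN : ∀ a, N a = ∑ i ∈ Finset.range l, σ^[i] a)
    (B : AddSubgroup A) (hB : ∀ b ∈ B, σ b ∈ B) {b : A} (hb : b ∈ B) (h0 : N b = 0) :
    l • b ∈ B.map D := by
  have h1 : ∑ i ∈ Finset.range l, (σ^[i] b - b) ∈ B.map D := by
    refine sum_mem (fun i _ => ?_)
    rw [hD]; exact (iter_sub σ _ hB i b hb).2
  rw [Finset.sum_sub_distrib, ← hN, h0] at h1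
  simpa using neg_mem h1

/-- the inequality without torsion -/
theorem tf_Hnt [Fact l.Prime] (hσ : ∀ a, σ^[l] a = a) (hD : D = σ - AddMonoidHom.id A)
    (hN : ∀ a, N a = ∑ i ∈ Finset.range l, σ^[i] a) (E : AddSubgroup A) (hE : ∀ a ∈ E, σ a ∈ E)
    [Module.Finite ℤ E] (htor : ∀ a ∈ E, l • a = 0 → a = 0)
    (hrank : l * (finrank ℤ ↥(E ⊓ D.ker) + 1) ≤ finrank ℤ E + 1) :
    (E.map N).relIndex (E ⊓ D.ker) ≠ 0 ∧ (E.map D).relIndex (E ⊓ N.ker) ≠ 0 ∧
      l * (E.map N).relIndex (E ⊓ D.ker) ≤ (E.map D).relIndex (E ⊓ N.ker) := by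
  have hp : l.Prime := Fact.out
  have eD : ∀ a, D a = σ a - a := by intro a; simp [hD]
  have hDN : ∀ a, D (N a) = 0 := by intro a; rw [eD, (norm_facts l σ hσ N hN a).2, sub_self]
  have hND : ∀ a, N (D a) = 0 := by
    intro a; rw [eD, map_sub, (norm_facts l σ hσ N hN a).1, sub_self]
  have hmid := mid D N E
  have := fin_sub E (E ⊓ D.ker) inf_le_left
  have := fin_sub E (E ⊓ N.ker) inf_le_left
  have hNE : ∀ a ∈ E, N a ∈ E ⊓ D.ker := fun a ha =>
    ⟨hN a ▸ sum_mem fun i _ => (iter_sub σ E hE i a ha).1, hDN a⟩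
  have hDE : ∀ a ∈ E, D a ∈ E ⊓ N.ker := fun a ha => ⟨eD a ▸ E.sub_mem (hE a ha) ha, hND a⟩
  have hrk := rank_le N E (E ⊓ D.ker) hNE
  have hA := relIndex_nsmul l hp (E ⊓ D.ker) (fun a ha => htor a ha.1)
  have hB := relIndex_nsmul l hp (E ⊓ N.ker) (fun a ha => htor a ha.1)
  have eA : (E ⊓ D.ker).map (nsmulAddMonoidHom (α := A) l) = (E ⊓ D.ker).map N := by
    have : ∀ a ∈ E ⊓ D.ker, N a = l • a := by
      intro a ha
      have h1 : σ a = a := by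
        have h2 : D a = 0 := ha.2
        rw [eD] at h2; exact sub_eq_zero.1 h2
      rw [hN]
      simp [Function.iterate_fixed h1]
    ext x
    constructor
    · rintro ⟨a, ha, rfl⟩; exact ⟨a, ha, this a ha⟩
    · rintro ⟨a, ha, rfl⟩; exact ⟨a, ha, (this a ha).symm⟩
  rw [eA] at hA
  have hσB : ∀ b ∈ E ⊓ N.ker, σ b ∈ E ⊓ N.ker := by
    intro b hb
    have e : σ b = D b + b := by rw [eD]; simp
    rw [e]; exact add_mem (hDE b hb.1) hb
  have hA2 := relIndex_mul_relIndex ((E ⊓ D.ker).map N) (E.map N) (E ⊓ D.ker)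
    (map_mono inf_le_left) (by rintro _ ⟨a, ha, rfl⟩; exact hNE a ha)
  have hB2 := relIndex_mul_relIndex ((E ⊓ N.ker).map D) (E.map D) (E ⊓ N.ker)
    (map_mono inf_le_left) (by rintro _ ⟨a, ha, rfl⟩; exact hDE a ha)
  have hl1 : (E ⊓ N.ker).map (nsmulAddMonoidHom (α := A) l) ≤ (E ⊓ N.ker).map D := by
    rintro _ ⟨b, hb, rfl⟩
    exact cob_Hnt hD hN _ hσB hb hb.2
  have hl2 : (AddSubgroup.map D)^[l - 1] (E ⊓ N.ker) ≤
      (E ⊓ N.ker).map (nsmulAddMonoidHom (α := A) l) := by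
    intro x hx
    obtain ⟨b, hb, rfl⟩ := mem_iter D _ _ x hx
    rw [hD]
    exact pow_mem l σ _ hσB b hb (by rw [← hN]; exact hb.2)
  have hd1 := relIndex_dvd_of_le_left (E ⊓ N.ker) hl1
  have hd2 := (relIndex_dvd_of_le_left (E ⊓ N.ker) hl2).trans
    (iter_dvd D (E ⊓ N.ker) (by rintro _ ⟨a, ha, rfl⟩; exact hDE a ha.1) (l - 1))
  rw [hB] at hd1 hd2
  rw [hA, hmid] at hA2
  generalize ((E ⊓ N.ker).map D).relIndex (E ⊓ N.ker) = t at hB2 hd1 hd2
  generalize ((E ⊓ N.ker).map D).relIndex (E.map D) = m at hA2 hB2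
  generalize (E.map D).relIndex (E ⊓ N.ker) = h1 at hB2 ⊢
  generalize (E.map N).relIndex (E ⊓ D.ker) = h0 at hA2 ⊢
  generalize finrank ℤ ↥(E ⊓ D.ker) = r0 at hA2 hrank hrk
  generalize finrank ℤ ↥(E ⊓ N.ker) = rB at hd1 hd2 hrk
  generalize finrank ℤ E = r at hrank hrk
  have hl0 : l ≠ 0 := hp.ne_zero
  have hm : m * h0 ≠ 0 := hA2 ▸ pow_ne_zero r0 hl0
  have ht0 : t ≠ 0 := by
    rintro rfl
    exact pow_ne_zero rB hl0 (Nat.eq_zero_of_zero_dvd hd1)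
  refine ⟨right_ne_zero_of_mul hm, right_ne_zero_of_mul (hB2 ▸ ht0), ?_⟩
  obtain ⟨k, rfl⟩ : ∃ k, l = k + 2 := ⟨l - 2, by have := hp.two_le; omega⟩
  have e : k + 2 - 1 = k + 1 := rfl
  rw [e] at hd2
  have h5 : ((k + 2) ^ (r0 + 1)) ^ (k + 1) ≤ t ^ (k + 1) := by
    rw [← pow_mul]
    exact (Nat.pow_le_pow_right (by omega) (by nlinarith)).trans
      (Nat.le_of_dvd (Nat.pos_of_ne_zero (pow_ne_zero _ ht0)) hd2)
  have h6 := (Nat.pow_le_pow_iff_left (Nat.succ_ne_zero k)).1 h5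
  rw [pow_succ, ← hA2, ← hB2, mul_assoc, mul_comm h0] at h6
  exact Nat.le_of_mul_le_mul_left h6 (Nat.pos_of_ne_zero (left_ne_zero_of_mul hm))

/-- the bound for the first cohomology -/
theorem ho_Hnt [Fact l.Prime] (hD : D = σ - AddMonoidHom.id A)
    (hN : ∀ a, N a = ∑ i ∈ Finset.range l, σ^[i] a)
    (h1 : ∀ a b, N a = 0 → N b = 0 → ∃ (x y : ℤ) (c : A), ¬ ((l : ℤ) ∣ x ∧ (l : ℤ) ∣ y) ∧
      x • a + y • b = D c) :
    ((⊤ : AddSubgroup A).map D).relIndex (⊤ ⊓ N.ker) ≤ l := by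
  have hp : l.Prime := Fact.out
  have hpz : Prime (l : ℤ) := Nat.prime_iff_prime_int.1 hp
  have hc : ∀ b, N b = 0 → ∃ c, D c = (l : ℤ) • b := fun b hb => by
    obtain ⟨c, -, hc⟩ := cob_Hnt hD hN ⊤ (fun _ _ => trivial) (mem_top b) hb
    exact ⟨c, by rw [hc, natCast_zsmul]⟩
  have hu : ∀ (b z : A) (y : ℤ), N b = 0 → ¬ (l : ℤ) ∣ y → ∀ c, z + y • b = D c →
      ∃ (k : ℤ) (c' : A), b = k • z + D c' := fun b z y hb hy c h => by
    obtain ⟨u, v, huv⟩ := (hpz.coprime_iff_not_dvd).2 hy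
    obtain ⟨c', hc'⟩ := hc b hb
    refine ⟨-v, u • c' + v • c, ?_⟩
    rw [map_add, map_zsmul, map_zsmul, hc', ← h, smul_add, smul_smul, smul_smul, neg_smul,
      add_left_comm, neg_add_cancel_left, ← add_smul, huv, one_smul]
  obtain ⟨a, ha, hg⟩ : ∃ a, N a = 0 ∧ ∀ b, N b = 0 → ∃ (k : ℤ) (c : A), b = k • a + D c := by
    by_cases h : ∀ b, N b = 0 → ∃ c, b = D c
    · exact ⟨0, map_zero N, fun b hb => (h b hb).elim fun c hc => ⟨0, c, by simpa using hc⟩⟩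
    push Not at h
    obtain ⟨a, ha, hn⟩ := h
    refine ⟨a, ha, fun b hb => ?_⟩
    obtain ⟨x, y, c, hxy, h⟩ := h1 a b ha hb
    by_cases hy : (l : ℤ) ∣ y
    · obtain ⟨k, c', h2⟩ := hu a (y • b) x ha (fun hx => hxy ⟨hx, hy⟩) c (by rw [add_comm, h])
      obtain ⟨y, rfl⟩ := hy
      obtain ⟨c'', h3⟩ := hc b hb
      refine absurd ?_ (hn ((k * y) • c'' + c'))
      rw [map_add, map_zsmul, h3, h2, smul_smul, smul_smul, mul_comm (l : ℤ), mul_assoc]
    · obtain ⟨k, c', h2⟩ := hu b (x • a) y hb hy c h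
      exact ⟨k * x, c', by rw [mul_smul]; exact h2⟩
  have h3 : (zmultiples (l : ℤ)).relIndex ⊤ = l := by
    rw [relIndex_top_right, Int.index_zmultiples, Int.natAbs_natCast]
  rw [← h3]
  refine corr ((zmultiplesHom A a).coprod D) (AddMonoidHom.fst ℤ A) _ _ _ _ ?_ le_top ?_
    (h3.symm ▸ hp.ne_zero)
  · intro b hb
    obtain ⟨k, c, h⟩ := hg b hb.2
    exact ⟨(k, c), h.symm⟩
  · rintro ⟨k, c⟩ ⟨y, hy⟩
    obtain ⟨c', hc'⟩ := hc a ha
    refine ⟨y • c' + c, trivial, ?_⟩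
    have hy' : y • (l : ℤ) = k := hy
    show _ = k • a + D c
    rw [map_add, map_zsmul, hc', ← hy', smul_smul, smul_eq_mul]

/-- every invariant element is a norm -/
theorem abs_Hnt [Fact l.Prime] [Module.Finite ℤ A] (hσ : ∀ a, σ^[l] a = a)
    (hrank : l * (finrank ℤ (σ - AddMonoidHom.id A).ker + 1) ≤ finrank ℤ A + 1)
    (h1 : ∀ a b, ∑ i ∈ Finset.range l, σ^[i] a = 0 → ∑ i ∈ Finset.range l, σ^[i] b = 0 →
      ∃ (x y : ℤ) (c : A), ¬ ((l : ℤ) ∣ x ∧ (l : ℤ) ∣ y) ∧ x • a + y • b = σ c - c)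
    (a : A) (ha : σ a = a) : ∃ b, a = ∑ i ∈ Finset.range l, σ^[i] b := by
  have hp : l.Prime := Fact.out
  obtain ⟨N, hN⟩ := exists_norm l σ
  obtain ⟨D, hD⟩ : ∃ D : A →+ A, D = σ - AddMonoidHom.id A := ⟨_, rfl⟩
  rw [← hD] at hrank
  have eD : ∀ a, D a = σ a - a := by intro a; simp [hD]
  have hDN : ∀ a, D (N a) = 0 := by intro a; rw [eD, (norm_facts l σ hσ N hN a).2, sub_self]
  have hND : ∀ a, N (D a) = 0 := by
    intro a; rw [eD, map_sub, (norm_facts l σ hσ N hN a).1, sub_self]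
  have h2 := ho_Hnt hD hN fun a b ha hb => by
    rw [hN] at ha hb
    simpa only [eD] using h1 a b ha hb
  let T := Submodule.torsion ℤ A
  have : Finite T := Module.finite_of_fg_torsion T (Submodule.torsion_isTorsion (R := ℤ) (M := A))
  have n0 : Nat.card T ≠ 0 := Nat.card_pos.ne'
  obtain ⟨E, hE⟩ : ∃ E, E = (nsmulAddMonoidHom (α := A) (Nat.card T)).range := ⟨_, rfl⟩
  have : AddGroup.FG A := Module.Finite.iff_addGroup_fg.1 inferInstance
  have hi : E.FiniteIndex := hE ▸ finiteIndex_range_nsmulAddMonoidHom_of_fg A n0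
  have hf : ∀ f : A →+ A, ∀ a ∈ E, f a ∈ E := by
    rw [hE]
    rintro f _ ⟨a, rfl⟩
    exact ⟨f a, (map_nsmul f _ a).symm⟩
  have : Finite (A ⧸ E.comap (AddMonoidHom.id A)) := by
    rw [comap_id]; infer_instance
  obtain ⟨_, hr⟩ := rank_of E (AddMonoidHom.id A) Function.injective_id fun a _ => ⟨a, rfl⟩
  have : Module.Finite ℤ D.ker :=
    Module.Finite.of_injective D.ker.subtype.toIntLinearMap Subtype.val_injective
  have hr2 : finrank ℤ ↥(E ⊓ D.ker) ≤ finrank ℤ D.ker :=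
    rk_Hnt D.ker.subtype _ (by rw [range_subtype]; exact inf_le_right)
  obtain ⟨h3, h4, h5⟩ := tf_Hnt hσ hD hN E (hf σ) (by
    rw [hE]
    rintro _ ⟨a, rfl⟩ h
    have h6 : a ∈ T := ⟨⟨(l * Nat.card T : ℕ), mem_nonZeroDivisors_of_ne_zero
      (Nat.cast_ne_zero.2 (mul_ne_zero hp.ne_zero n0))⟩, by
      rw [Submonoid.mk_smul, natCast_zsmul, mul_nsmul']; exact h⟩
    exact congrArg Subtype.val (card_nsmul_eq_zero' (x := (⟨a, h6⟩ : T))))
    (by rw [hr]; exact (Nat.mul_le_mul_left _ (by omega)).trans hrank)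
  obtain ⟨h6, -, h7⟩ := MP_f3cd89_nt.HerbX.qcore D N ⊤ E le_top
    (by rw [relIndex_top_right]; exact hi.index_ne_zero) (fun _ _ => trivial) (hf D)
    (fun _ _ => trivial) (hf N) hDN hND h3 h4
  have h8 : ((⊤ : AddSubgroup A).map N).relIndex (⊤ ⊓ D.ker) = 1 := by
    refine le_antisymm (Nat.le_of_mul_le_mul_right ?_ (Nat.pos_of_ne_zero
      (mul_ne_zero hp.ne_zero h3))) (Nat.pos_of_ne_zero h6)
    rw [one_mul]
    exact ((Nat.mul_le_mul_left _ h5).trans_eq h7).trans (Nat.mul_le_mul_right _ h2)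
  obtain ⟨b, -, hb⟩ := relIndex_eq_one.1 h8 (show a ∈ ⊤ ⊓ D.ker from
    ⟨trivial, show D a = 0 by rw [eD, ha, sub_self]⟩)
  exact ⟨b, by rw [← hN, hb]⟩

end

end Pool.Agent.MP_e23604_nt.L
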